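import Pool.Agent.Y115.Bar

/-!
# Irreducibility for all `λ` at once of the representations attached to a weight two eigenclass on
`GL_2` over a number field

Let `K` be a number field and let `θ` be a character of the Hecke algebra, with the eigenvalues
`a_v = θ(T_v)`, `b_v = θ(S_v)`.  Q1 asks for continuous **irreducible** representations `ρ_{θ,λ}` with
Hecke polynomials `X² - a_v X + b_v N v`.  We show that the irreducibility is automatic, for all `λ`
at once, as soon as for two prime numbers `p`, unramified in `K`, the following holds: if for each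
place `v` above `p` one of the two roots `α_v` of `X² - a_v X + b_v N v` is chosen, then the product
of the `α_v`, `v | p`, is not a root of unity times a rational power of `p`.

The field `K` is arbitrary, nothing is assumed at the places above `ℓ` (no weight, no Hodge-Tate
condition) nor at the infinite places, and no automorphy is used.
-/

set_option autoImplicit false

namespace Pool.Agent.Results.MP_976e2b_nt.IrreducibleForAllLambda

open NumberField Polynomial Matrix Module IsDedekindDomain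

variable {K : Type} [Field K] [NumberField K]

/-- `Q` is a prime ideal above the place `v` of `K` of the ring of all algebraic integers. -/
def Above (v : HeightOneSpectrum (𝓞 K)) (Q : Ideal (𝓞 (AlgebraicClosure K))) : Prop :=
  Q.IsPrime ∧ Q.comap (algebraMap (𝓞 K) (𝓞 (AlgebraicClosure K))) = v.asIdeal

/-- `g` is in the inertia group at `Q`. -/
def IsInertia (Q : Ideal (𝓞 (AlgebraicClosure K))) (g : Gal(AlgebraicClosure K/K)) : Prop :=
  ∀ x : 𝓞 (AlgebraicClosure K), g • x - x ∈ Q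

/-- `g` is an arithmetic Frobenius element at `Q`, the residue field of `v` having `N v`
elements. -/
def IsFrobenius (v : HeightOneSpectrum (𝓞 K)) (Q : Ideal (𝓞 (AlgebraicClosure K)))
    (g : Gal(AlgebraicClosure K/K)) : Prop :=
  ∀ x : 𝓞 (AlgebraicClosure K), g • x - x ^ Ideal.absNorm v.asIdeal ∈ Q

/-- The prime number `p` is unramified in `K`. -/
def Unramified (K : Type) [Field K] [NumberField K] (p : ℕ) : Prop :=
  ∀ v : HeightOneSpectrum (𝓞 K), (p : 𝓞 K) ∈ v.asIdeal → (p : 𝓞 K) ∉ v.asIdeal ^ 2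

/-- The Hecke polynomial `X² - a X + b N v`. -/
noncomputable def heckePoly (v : HeightOneSpectrum (𝓞 K)) (a b : ℂ) : ℂ[X] :=
  X ^ 2 - C a * X + C (b * (Ideal.absNorm v.asIdeal : ℂ))

variable {ℓ : ℕ} [Fact ℓ.Prime]

/-- The matrix of `g`. -/
noncomputable def mat (ρ : Gal(AlgebraicClosure K/K) →* GL (Fin 2) (PadicAlgCl ℓ))
    (g : Gal(AlgebraicClosure K/K)) : Matrix (Fin 2) (Fin 2) (PadicAlgCl ℓ) :=
  (ρ g : GL (Fin 2) (PadicAlgCl ℓ))

/-- `ρ` is unramified at `v`, and the characteristic polynomial of the Frobenius elements at `v`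
corresponds under `ι` to the Hecke polynomial. -/
structure AttachedAt (ρ : Gal(AlgebraicClosure K/K) →* GL (Fin 2) (PadicAlgCl ℓ))
    (ι : PadicAlgCl ℓ →+* ℂ) (v : HeightOneSpectrum (𝓞 K)) (a b : ℂ) : Prop where
  unramified : ∀ Q, Above v Q → ∀ g, IsInertia Q g → ρ g = 1
  frobenius : ∀ Q, Above v Q → ∀ g, IsFrobenius v Q g →
    (mat ρ g).charpoly.map ι = heckePoly v a b

/-- `ρ` is irreducible. -/
def Irreducible (ρ : Gal(AlgebraicClosure K/K) →* GL (Fin 2) (PadicAlgCl ℓ)) : Prop :=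
  ∀ U : Submodule (PadicAlgCl ℓ) (Fin 2 → PadicAlgCl ℓ),
    (∀ g, ∀ x ∈ U, mat ρ g *ᵥ x ∈ U) → U = ⊥ ∨ U = ⊤

/-- No choice of a root `α v` of the Hecke polynomial for each place `v` above `p` has a product
which is a root of unity times a rational power of `p`. -/
def NoRelation (a b : HeightOneSpectrum (𝓞 K) → ℂ) (p : ℕ) : Prop :=
  ∀ α : HeightOneSpectrum (𝓞 K) → ℂ,
    (∀ v : HeightOneSpectrum (𝓞 K), (p : 𝓞 K) ∈ v.asIdeal →
      (heckePoly v (a v) (b v)).eval (α v) = 0) →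
    ∀ (N : ℕ) (c : ℤ), 0 < N →
      (∏ᶠ (v : HeightOneSpectrum (𝓞 K)) (_ : (p : 𝓞 K) ∈ v.asIdeal), α v) ^ N ≠ (p : ℂ) ^ c

theorem charpoly_two {E : Type*} [Field E] (A : Matrix (Fin 2) (Fin 2) E) :
    A.charpoly = X ^ 2 - C A.trace * X + C A.det := Matrix.charpoly_fin_two A

/-- the characteristic polynomial of the inverse -/
theorem roots_inv (ι : PadicAlgCl ℓ →+* ℂ) (g : GL (Fin 2) (PadicAlgCl ℓ)) {a c : ℂ}
    (h : ((g : Matrix (Fin 2) (Fin 2) (PadicAlgCl ℓ)).charpoly).map ι = X ^ 2 - C a * X + C c) :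
    c ≠ 0 ∧ (((g⁻¹ : GL (Fin 2) (PadicAlgCl ℓ)) :
      Matrix (Fin 2) (Fin 2) (PadicAlgCl ℓ)).charpoly).map ι =
        X ^ 2 - C (a / c) * X + C (1 / c) := by
  set A : Matrix (Fin 2) (Fin 2) (PadicAlgCl ℓ) :=
    (g : Matrix (Fin 2) (Fin 2) (PadicAlgCl ℓ)) with hA
  rw [charpoly_two] at h
  simp only [Polynomial.map_add, Polynomial.map_sub, Polynomial.map_mul, Polynomial.map_pow,
    Polynomial.map_X, Polynomial.map_C] at h
  have h0 : ι A.det = c := by
    have h1 := congrArg (fun P => Polynomial.coeff P 0) h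
    simpa using h1
  have h1 : ι A.trace = a := by
    have h1 := congrArg (fun P => Polynomial.coeff P 1) h
    simp [Polynomial.coeff_X, Polynomial.coeff_C, Polynomial.coeff_X_pow] at h1
    exact h1
  have hdet : A.det ≠ 0 := by
    have := Units.ne_zero (Matrix.GeneralLinearGroup.det g)
    exact this
  have hc : c ≠ 0 := by
    rw [← h0]
    exact (map_ne_zero ι).2 hdet
  refine ⟨hc, ?_⟩
  have hinv : ((g⁻¹ : GL (Fin 2) (PadicAlgCl ℓ)) : Matrix (Fin 2) (Fin 2) (PadicAlgCl ℓ)) =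
      A⁻¹ := Matrix.coe_units_inv g
  rw [hinv, charpoly_two]
  have htr : (A⁻¹).trace = A.trace / A.det := by
    rw [Matrix.inv_def, Matrix.adjugate_fin_two, Matrix.trace_fin_two]
    simp only [Matrix.smul_apply, smul_eq_mul, Ring.inverse_eq_inv', Matrix.of_apply,
      Matrix.cons_val', Matrix.cons_val_zero, Matrix.cons_val_one, Matrix.cons_val_fin_one]
    rw [Matrix.trace_fin_two]
    field_simp
    ring
  have hdt : (A⁻¹).det = 1 / A.det := by
    rw [Matrix.det_nonsing_inv, Ring.inverse_eq_inv', one_div]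
  rw [htr, hdt]
  simp only [Polynomial.map_add, Polynomial.map_sub, Polynomial.map_mul, Polynomial.map_pow,
    Polynomial.map_X, Polynomial.map_C, map_div₀, map_one, h0, h1]

theorem alg_root {x a c : ℂ} (ha : IsAlgebraic ℚ a) (hc : IsAlgebraic ℚ c)
    (h : x ^ 2 - a * x + c = 0) : IsAlgebraic ℚ x := by
  let L := algebraicClosure ℚ ℂ
  have hL : Algebra.IsAlgebraic ℚ L := algebraicClosure.isAlgebraic ℚ ℂ
  let a' : L := ⟨a, mem_algebraicClosure_iff.2 ha⟩
  let c' : L := ⟨c, mem_algebraicClosure_iff.2 hc⟩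
  have h1 : IsAlgebraic L x := by
    refine ⟨X ^ 2 - C a' * X + C c', ?_, ?_⟩
    · intro h0
      have h2 := congrArg (fun P => Polynomial.coeff P 2) h0
      simp [Polynomial.coeff_X, Polynomial.coeff_C, Polynomial.coeff_X_pow] at h2
    · have e1 : algebraMap L ℂ a' = a := rfl
      have e2 : algebraMap L ℂ c' = c := rfl
      simp only [map_add, map_sub, map_mul, map_pow, aeval_X, aeval_C, e1, e2]
      exact h
  exact IsAlgebraic.restrictScalars ℚ h1

theorem inv_root {x a c : ℂ} (hc : c ≠ 0) (h : x ^ 2 - a / c * x + 1 / c = 0) :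
    (x⁻¹) ^ 2 - a * x⁻¹ + c = 0 := by
  have hx : x ≠ 0 := by
    rintro rfl
    simp at h
    exact hc h
  have h3 : c * x ^ 2 - a * x + 1 = 0 := by
    have e : c * x ^ 2 - a * x + 1 = c * (x ^ 2 - a / c * x + 1 / c) := by
      field_simp
    rw [e, h, mul_zero]
  have e : (x⁻¹) ^ 2 - a * x⁻¹ + c = (c * x ^ 2 - a * x + 1) / x ^ 2 := by
    field_simp
    ring
  rw [e, h3, zero_div]

theorem part (ℓ : ℕ) [Fact ℓ.Prime] (T : Set ℕ) (hT3 : 3 ≤ T.encard)
    (hT : ∀ p ∈ T, p.Prime ∧ Unramified K p) (hℓ : ℓ ∉ T)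
    (a b : HeightOneSpectrum (𝓞 K) → ℂ)
    (halg : ∀ p ∈ T, ∀ v : HeightOneSpectrum (𝓞 K), (p : 𝓞 K) ∈ v.asIdeal →
      IsAlgebraic ℚ (a v) ∧ IsAlgebraic ℚ (b v))
    (hno : ∃ p ∈ T, NoRelation a b p)
    (ι : PadicAlgCl ℓ →+* ℂ)
    (ρ : Gal(AlgebraicClosure K/K) →* GL (Fin 2) (PadicAlgCl ℓ)) (hρ : Continuous ρ)
    (hS : ∀ p ∈ T, ∀ v : HeightOneSpectrum (𝓞 K), (p : 𝓞 K) ∈ v.asIdeal →
      AttachedAt ρ ι v (a v) (b v)) : Irreducible ρ := by
  intro U hU
  by_contra hcon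
  push Not at hcon
  obtain ⟨hbot, htop⟩ := hcon
  have hfin : finrank (PadicAlgCl ℓ) U = 1 := by
    have h1 : 0 < finrank (PadicAlgCl ℓ) U := by
      rw [Nat.pos_iff_ne_zero]
      intro h
      exact hbot (Submodule.finrank_eq_zero.1 h)
    have h2 := Submodule.finrank_lt htop
    rw [finrank_fin_fun] at h2
    omega
  obtain ⟨p, hp, hno⟩ := hno
  set S : HeightOneSpectrum (𝓞 K) → Multiset ℂ := fun v =>
    (X ^ 2 - C (a v / (b v * (Ideal.absNorm v.asIdeal : ℂ))) * X +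
      C (1 / (b v * (Ideal.absNorm v.asIdeal : ℂ))) : ℂ[X]).roots with hSdef
  have hgood : ∀ p ∈ T, ∀ v : HeightOneSpectrum (𝓞 K), (p : 𝓞 K) ∈ v.asIdeal →
      ∀ Q : Ideal (𝓞 (AlgebraicClosure K)), Q.IsPrime →
      Pool.Agent.W571.FM.cm Q = v.asIdeal →
      (∀ g, Pool.Agent.W569.FM.InInertia Q g → ρ g = 1) ∧
        ∀ g, Pool.Agent.W569.FM.FrobAt (Ideal.absNorm v.asIdeal) Q g →
          (((ρ g⁻¹ : GL (Fin 2) (PadicAlgCl ℓ)) :
            Matrix (Fin 2) (Fin 2) (PadicAlgCl ℓ)).charpoly.map ι).roots = S v := by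
    intro p hp v hv Q hQ hQv
    refine ⟨(hS p hp v hv).unramified Q ⟨hQ, hQv⟩, fun g hg => ?_⟩
    have h1 := (hS p hp v hv).frobenius Q ⟨hQ, hQv⟩ g hg
    have h2 := (roots_inv ι (ρ g) h1).2
    rw [map_inv, h2]
  have hc : ∀ p ∈ T, ∀ v : HeightOneSpectrum (𝓞 K), (p : 𝓞 K) ∈ v.asIdeal →
      b v * (Ideal.absNorm v.asIdeal : ℂ) ≠ 0 := by
    intro p hp v hv
    obtain ⟨Q, σ, hQ, hQv, hσ⟩ := Pool.Agent.W571.FM.frob_cm v
    exact (roots_inv ι (ρ σ) ((hS p hp v hv).frobenius Q ⟨hQ.isPrime, hQv⟩ σ hσ)).1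
  have halg' : ∀ p ∈ T, ∀ v : HeightOneSpectrum (𝓞 K), (p : 𝓞 K) ∈ v.asIdeal →
      ∀ x ∈ S v, IsAlgebraic ℚ x := by
    intro p hp v hv x hx
    obtain ⟨ha, hb⟩ := halg p hp v hv
    have hN : IsAlgebraic ℚ (Ideal.absNorm v.asIdeal : ℂ) := isAlgebraic_natCast _
    have h1 := Polynomial.isRoot_of_mem_roots hx
    rw [Polynomial.IsRoot.def] at h1
    simp only [eval_add, eval_sub, eval_mul, eval_pow, eval_X, eval_C] at h1
    refine alg_root (ha.mul (hb.mul hN).inv) ?_ h1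
    rw [one_div]
    exact (hb.mul hN).inv
  obtain ⟨A, hA, hprod⟩ := Pool.Agent.Y115.B.exists_A_bar ℓ ρ hρ ι T hT3
    (fun p hp => ⟨(hT p hp).1, fun h => hℓ (h ▸ hp), (hT p hp).2⟩) S hgood halg' U
    (fun g x hx => hU g x hx)
  have hx : ∀ v : HeightOneSpectrum (𝓞 K), ∃ x : ℂ, (p : 𝓞 K) ∈ v.asIdeal →
      (A v).prod = x ∧ x ∈ S v := by
    intro v
    by_cases hv : (p : 𝓞 K) ∈ v.asIdeal
    · obtain ⟨h1, h2⟩ := hA p hp v hv
      rw [hfin] at h1
      obtain ⟨x, hx⟩ := Multiset.card_eq_one.1 h1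
      refine ⟨x, fun _ => ⟨by rw [hx, Multiset.prod_singleton], ?_⟩⟩
      apply Multiset.mem_of_le h2
      rw [hx]
      exact Multiset.mem_singleton_self x
    · exact ⟨0, fun h => absurd h hv⟩
  choose x hx using hx
  obtain ⟨N, c, hN, hNc⟩ := hprod p hp
  refine hno (fun v => (x v)⁻¹) ?_ N (-c) hN ?_
  · intro v hv
    obtain ⟨-, h1⟩ := hx v hv
    have h2 := Polynomial.isRoot_of_mem_roots h1
    have hc0 := hc p hp v hv
    rw [Polynomial.IsRoot.def] at h2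
    simp only [eval_add, eval_sub, eval_mul, eval_pow, eval_X, eval_C] at h2
    unfold heckePoly
    simp only [eval_add, eval_sub, eval_mul, eval_pow, eval_X, eval_C]
    exact inv_root hc0 h2
  · have h1 : (∏ᶠ (v : HeightOneSpectrum (𝓞 K)) (_ : (p : 𝓞 K) ∈ v.asIdeal), (x v)⁻¹) =
        (∏ᶠ (v : HeightOneSpectrum (𝓞 K)) (_ : (p : 𝓞 K) ∈ v.asIdeal), (A v).prod)⁻¹ := by
      have h2 : (∏ᶠ (v : HeightOneSpectrum (𝓞 K)) (_ : (p : 𝓞 K) ∈ v.asIdeal), (x v)⁻¹) =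
          ∏ᶠ (v : HeightOneSpectrum (𝓞 K)),
            (∏ᶠ (_ : (p : 𝓞 K) ∈ v.asIdeal), (A v).prod)⁻¹ := by
        refine finprod_congr fun v => ?_
        by_cases hv : (p : 𝓞 K) ∈ v.asIdeal
        · simp [hv, (hx v hv).1]
        · simp [hv]
      rw [h2]
      exact finprod_inv_distrib _
    rw [h1, inv_pow, hNc, _root_.zpow_neg]

/-- **Irreducibility for all `λ` at once.** -/
theorem result (K : Type) [Field K] [NumberField K] (T : Set ℕ)
    (hT : ∀ p ∈ T, p.Prime ∧ Unramified K p) (a b : HeightOneSpectrum (𝓞 K) → ℂ)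
    (halg : ∀ p ∈ T, ∀ v : HeightOneSpectrum (𝓞 K), (p : 𝓞 K) ∈ v.asIdeal →
      IsAlgebraic ℚ (a v) ∧ IsAlgebraic ℚ (b v)) :
    -- (1) one `ℓ`: one prime number without relation suffices
    (3 ≤ T.encard → (∃ p ∈ T, NoRelation a b p) → ∀ (ℓ : ℕ) [Fact ℓ.Prime], ℓ ∉ T →
      ∀ (ι : PadicAlgCl ℓ →+* ℂ) (ρ : Gal(AlgebraicClosure K/K) →* GL (Fin 2) (PadicAlgCl ℓ)),
        Continuous ρ → (∀ p ∈ T, ∀ v : HeightOneSpectrum (𝓞 K), (p : 𝓞 K) ∈ v.asIdeal →
          AttachedAt ρ ι v (a v) (b v)) → Irreducible ρ) ∧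
    -- (2) all `ℓ`: two prime numbers without relation suffice
    (4 ≤ T.encard → (∃ p ∈ T, ∃ q ∈ T, p ≠ q ∧ NoRelation a b p ∧ NoRelation a b q) →
      ∀ (ℓ : ℕ) [Fact ℓ.Prime] (ι : PadicAlgCl ℓ →+* ℂ)
        (ρ : Gal(AlgebraicClosure K/K) →* GL (Fin 2) (PadicAlgCl ℓ)), Continuous ρ →
        (∀ p ∈ T, p ≠ ℓ → ∀ v : HeightOneSpectrum (𝓞 K), (p : 𝓞 K) ∈ v.asIdeal →
          AttachedAt ρ ι v (a v) (b v)) → Irreducible ρ) := by
  refine ⟨fun h3 hno ℓ _ hℓ ι ρ hρ hS => part ℓ T h3 hT hℓ a b halg hno ι ρ hρ hS, ?_⟩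
  intro hT4 hno ℓ _ ι ρ hρ hS
  have h3 : 3 ≤ (T \ {ℓ}).encard := by
    by_contra hcon
    push Not at hcon
    have h1 : T.encard ≤ (T \ {ℓ}).encard + 1 := by
      refine (Set.encard_le_encard (t := (T \ {ℓ}) ∪ {ℓ}) (by simp)).trans ?_
      refine (Set.encard_union_le _ _).trans ?_
      rw [Set.encard_singleton]
    have h2 : (T \ {ℓ}).encard + 1 < 3 + 1 := by
      exact (ENat.add_lt_add_iff_right (by simp)).2 hcon
    have h4 := hT4.trans h1
    have h5 : (3 : ℕ∞) + 1 = 4 := by norm_num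
    rw [h5] at h2
    exact absurd h4 (not_le.2 h2)
  obtain ⟨p, hp, q, hq, hpq, hnp, hnq⟩ := hno
  refine part ℓ (T \ {ℓ}) h3 (fun p hp => hT p hp.1) (fun h => h.2 rfl) a b
    (fun p hp => halg p hp.1) ?_ ι ρ hρ (fun p hp v hv => hS p hp.1 hp.2 v hv)
  by_cases h : p = ℓ
  · exact ⟨q, ⟨hq, fun h' => hpq (h.trans (Eq.symm h'))⟩, hnq⟩
  · exact ⟨p, ⟨hp, h⟩, hnp⟩

end Pool.Agent.Results.MP_976e2b_nt.IrreducibleForAllLambda
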