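import Mathlib
import Pool.Agent.Q112.PI.Ext

/-!
# Weight 2 eigenclasses which are potentially invariant up to twist

`K` is a totally real or CM field with solvable Galois closure over `ℚ`, `W` and `H` are the absolute
Galois groups of `ℚ` and `K`, and `θ` is a nontrivial character of the Hecke algebra of level `𝔫`
over `K`. Let `ρ : H → GL₂(k)` be the representation attached to `θ` at one place `λ₀`, where `k` is
an algebraic closure of the field of `l`-adic numbers (Harris, Lan, Taylor, Thorne; Scholze). `L` is
a finite Galois extension of `ℚ` containing `K` and `A` its absolute Galois group. If over `L` the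
representation `ρ` is irreducible, without nontrivial selftwist, and isomorphic to a twist of each of
its conjugates under `W`, then `ρ` is a twist of the restriction of the representation of a
classical newform of weight two, and Q1 holds for `θ`.
-/

set_option autoImplicit false

namespace Pool.Agent.Results.MP_976e2b_nt.PotentiallyInvariant

open Matrix Q112PI

variable {W : Type} [Group W] {k : Type} [Field k]

/-- The published theorems. `contW`: continuous representations of `W`; `newW`: twists (by a
continuous character of `W`) of the representations of the classical newforms of weight two;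
`eigen`: the representations `ρ_{θ,λ₀}` of the nontrivial characters `θ` of the Hecke algebras over
`K`; `Answer ρ`: if `ρ = ρ_{θ,λ₀}`, then there are a finite extension `F_θ` of `E_θ` and
representations `ρ_{θ,λ}` for all `λ` as in Q1. -/
structure KnownTheorems (H : Subgroup W) (contW newW : (W →* GL (Fin 2) k) → Prop)
    (eigen Answer : (H →* GL (Fin 2) k) → Prop) : Prop where
  /-- Tate: a continuous projective representation of `W` lifts to a continuous representation
  (`H` is open in `W`, so a projective representation is continuous if it is so on `H`) -/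
  tate : ∀ (P : W → GL (Fin 2) k) (ρ : H →* GL (Fin 2) k), IsProj P → eigen ρ →
    (∀ h : H, P h = ρ h) → ∃ ρ₀ : W →* GL (Fin 2) k, contW ρ₀ ∧
      ∀ g : W, ∃ c : kˣ, (ρ₀ g : Matrix (Fin 2) (Fin 2) k) = (c : k) • (P g : Matrix _ _ k)
  /-- Langlands: descent of automorphy along solvable extensions (the automorphic representation of
  `θ` is cohomological, so its descent is a discrete series of weight two at infinity) -/
  descent : ∀ (ρ₀ : W →* GL (Fin 2) k) (ρ : H →* GL (Fin 2) k), contW ρ₀ → eigen ρ →
    IsTwist (ρ₀.comp H.subtype) ρ → newW ρ₀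
  /-- Eichler, Shimura, Ribet, Carayol, Saito: if `ρ` is a twist of the representation of a newform
  `g` of weight two, then it is a twist by a character of finite order, and the twists of the
  representations of `g` at all places have the properties of Q1 -/
  eichler_shimura : ∀ (ρ₀ : W →* GL (Fin 2) k) (ρ : H →* GL (Fin 2) k), newW ρ₀ → eigen ρ →
    IsTwist (ρ₀.comp H.subtype) ρ → Answer ρ

theorem result [IsAlgClosed k] {H A : Subgroup W} [A.Normal] (hAH : A ≤ H)
    {contW newW : (W →* GL (Fin 2) k) → Prop} {eigen Answer : (H →* GL (Fin 2) k) → Prop}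
    (known : KnownTheorems H contW newW eigen Answer) (ρ : H →* GL (Fin 2) k) (hθ : eigen ρ)
    (hirr : Irr (ρ.comp (Subgroup.inclusion hAH)))
    (hns : NoSelfTwist (ρ.comp (Subgroup.inclusion hAH)))
    (hinv : InvUpToTwist (ρ.comp (Subgroup.inclusion hAH))) :
    (∃ ρ₀ : W →* GL (Fin 2) k, newW ρ₀ ∧ IsTwist (ρ₀.comp H.subtype) ρ) ∧ Answer ρ := by
  obtain ⟨P, hP, hPρ⟩ := exists_proj hAH ρ hirr hns hinv
  obtain ⟨ρ₀, hρ₀, hlift⟩ := known.tate P ρ hP hθ hPρ
  have htw : IsTwist (ρ₀.comp H.subtype) ρ := by
    refine twist_of_lift ρ ρ₀ fun x => ?_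
    obtain ⟨c, hc⟩ := hlift x
    exact ⟨c, by rw [hc, hPρ]⟩
  have h1 : newW ρ₀ := known.descent ρ₀ ρ hρ₀ hθ htw
  exact ⟨⟨ρ₀, h1, htw⟩, known.eichler_shimura ρ₀ ρ h1 hθ htw⟩

end Pool.Agent.Results.MP_976e2b_nt.PotentiallyInvariant
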