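import Pool.Agent.Q65.TD.SymPow

set_option autoImplicit false

namespace Pool.Agent.Results.MP_976e2b_nt.SymmetricPowers

open Matrix NumberField IsDedekindDomain
open Pool.Agent.W401.Cheb (GK IsFrob IsInert)
open Pool.Agent.Q65.TD

/-- Let `P v = X² - a_v X + b_v N v = (X - α v 0) (X - α v 1)`, `v ∉ S`, be the Hecke polynomials of
an eigenclass on `GL 2` over the number field `K`, with coefficients in the Hausdorff topological
field `k` of characteristic zero (for instance an algebraic closure of `ℚ_l`), and let `b₀ v` be a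
system with a Galois representation `ρ₀` of dimension `m₀`. Suppose that the product of `P` with the
one system `b₀`, the symmetric square and the symmetric cube of `P` and the system `α v 0 * α v 1`
of determinants have Galois representations `R₀` (semisimple), `R₂`, `R₃`, `δ`, and that `ρ₀` is
absolutely irreducible on the intersection of the kernels of `R₂`, `R₃`, `δ`; if `m₀` is even,
suppose that the symmetric fifth power of `P` has a Galois representation `R₅`, too, with `ρ₀`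
absolutely irreducible on the intersection of the four kernels. Then `P` has a Galois representation
`r` over `k`, which is semisimple, `R₀` is isomorphic to `r ⊗ ρ₀`, and `r` is irreducible if and only
if `R₀` is. -/
theorem result (K : Type) [Field K] [NumberField K] (k : Type) [Field k] [CharZero k]
    [TopologicalSpace k] [IsTopologicalRing k] [T2Space k]
    (S : Set (HeightOneSpectrum (𝓞 K))) (hS : S.Finite)
    (α : HeightOneSpectrum (𝓞 K) → Fin 2 → kˣ)
    (m₀ : ℕ) (hm₀ : 0 < m₀) (b₀ : HeightOneSpectrum (𝓞 K) → GL (Fin m₀) k)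
    (ρ₀ : GK K →* GL (Fin m₀) k) (hρ₀ : CorrP S b₀ ρ₀)
    (R₀ : GK K →* GL (Fin 2 × Fin m₀) k) (hR₀ : CorrP S (fun v => kr (dg (α v)) (b₀ v)) R₀)
    (hss : Semisimple R₀)
    (δ : GK K →* GL (Fin 1) k) (hδ : CorrP S (fun v => dg fun _ : Fin 1 => α v 0 * α v 1) δ)
    (R₂ : GK K →* GL (Fin 3) k) (hR₂ : CorrP S (fun v => dg (symd 2 (α v))) R₂)
    (R₃ : GK K →* GL (Fin 4) k) (hR₃ : CorrP S (fun v => dg (symd 3 (α v))) R₃)
    (h : (Odd m₀ ∧ AbsIrrOn ρ₀ (δ.ker ⊓ R₂.ker ⊓ R₃.ker)) ∨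
      ∃ R₅ : GK K →* GL (Fin 6) k, CorrP S (fun v => dg (symd 5 (α v))) R₅ ∧
        AbsIrrOn ρ₀ (δ.ker ⊓ R₂.ker ⊓ R₃.ker ⊓ R₅.ker)) :
    ∃ r : GK K →* GL (Fin 2) k, CorrP S (fun v => dg (α v)) r ∧ Semisimple r ∧
      (∃ P, ∀ g, R₀ g = P * kr (r g) (ρ₀ g) * P⁻¹) ∧ (Irred r ↔ Irred R₀) := by
  have key : ∃ r : GK K →* GL (Fin 2) k, CorrP S (fun v => dg (α v)) r ∧
      (∃ P, ∀ g, R₀ g = P * kr (r g) (ρ₀ g) * P⁻¹) ∧ AbsIrrOn ρ₀ r.ker := by
    rcases h with ⟨hodd, hirr⟩ | ⟨R₅, hR₅, hirr⟩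
    · obtain ⟨r, h1, h2, h3⟩ := symmetric_descent (N := δ.ker ⊓ R₂.ker ⊓ R₃.ker) hS hm₀ hρ₀ hR₀ hss
        hδ hR₂ hR₃ (inf_le_left.trans inf_le_left) (inf_le_left.trans inf_le_right) inf_le_right
        hirr (Or.inl hodd)
      exact ⟨r, h1, h2, hirr.mono h3⟩
    · obtain ⟨r, h1, h2, h3⟩ := symmetric_descent (N := δ.ker ⊓ R₂.ker ⊓ R₃.ker ⊓ R₅.ker) hS hm₀ hρ₀
        hR₀ hss hδ hR₂ hR₃ (inf_le_left.trans (inf_le_left.trans inf_le_left))
        (inf_le_left.trans (inf_le_left.trans inf_le_right)) (inf_le_left.trans inf_le_right)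
        hirr (Or.inr ⟨R₅, hR₅, inf_le_right⟩)
      exact ⟨r, h1, h2, hirr.mono h3⟩
  obtain ⟨r, h1, ⟨P, hP⟩, hirr⟩ := key
  refine ⟨r, h1, ?_, ⟨P, hP⟩, ?_⟩
  · have h7 : Semisimple (krHom r ρ₀) := ss_conj P hP hss
    rwa [ss_krHom hm₀ hirr.absIrr] at h7
  · rw [← irr_krHom hm₀ hirr.absIrr]
    constructor
    · intro h2
      exact irr_conj (R := krHom r ρ₀) (R' := R₀) P⁻¹ (fun g => by
        rw [hP g]
        show kr (r g) (ρ₀ g) = _
        group) h2
    · intro h2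
      exact irr_conj (R := R₀) (R' := krHom r ρ₀) P hP h2

end Pool.Agent.Results.MP_976e2b_nt.SymmetricPowers
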